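import Pool.Agent.Lib.helper22.CXEtr

namespace Pool.Agent.Results.MP_e38cae_lc.Hard

open Pool.Agent.Lib.CX Pool.Agent.Lib.ER

/-- a polynomial as its list of terms: an integer coefficient and the list of variables of the monomial -/
abbrev Pl := List (ℤ × List ℕ)

/-- the value of a polynomial at a point of `ℝ^n`; a variable with index `≥ n` does not occur in valid inputs -/
noncomputable def val {n : ℕ} (p : Pl) (x : Fin n → ℝ) : ℝ :=
  (p.map fun m => (m.1 : ℝ) * (m.2.map fun i => if h : i < n then x ⟨i, h⟩ else 0).prod).sum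

/-- valid inputs `(n, [f_1, …, f_m])`: only the variables `0, …, n-1` occur, monomials have degree at most eight -/
def Valid (a : List Unit × List Pl) : Prop :=
  ∀ p ∈ a.2, ∀ m ∈ p, m.2.length ≤ 8 ∧ ∀ i ∈ m.2, i < a.1.length

/-- the polynomial map `ℝ^n → ℝ^m` is onto -/
def Surj (a : List Unit × List Pl) : Prop :=
  Function.Surjective fun (x : Fin a.1.length → ℝ) (j : Fin a.2.length) => val a.2[j.1] x

def sq (e : Q4) : Pl :=
  [(1, [e.1 + 3, e.2.1 + 3, e.1 + 3, e.2.1 + 3]), (2, [e.1 + 3, e.2.1 + 3, e.2.2.1 + 3]),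
    (-2, [e.1 + 3, e.2.1 + 3, e.2.2.2 + 3]), (1, [e.2.2.1 + 3, e.2.2.1 + 3]), (-2, [e.2.2.1 + 3, e.2.2.2 + 3]),
    (1, [e.2.2.2 + 3, e.2.2.2 + 3])]

def pp (E : List Q4) : Pl := [(1, [0, 0]), (1, [3, 3]), (1, [4, 4]), (-2, [4]), (1, [])] ++ E.flatMap sq

def mu (c : ℤ) (l : List ℕ) (p : Pl) : Pl := p.map fun m => (c * m.1, l ++ m.2)

def red (a : List Unit × List Unit × List Q4) : List Unit × List Pl :=
  (() :: () :: () :: a.2.1, (mu 1 [1, 2] (pp a.2.2) ++ mu (-1) [] (pp a.2.2)) ::
    (mu 1 [1, 1, 1, 2] (pp a.2.2) ++ mu (-1) [1, 1] (pp a.2.2) ++ mu (-1) [2] (pp a.2.2)) ::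
    (List.range a.1.length).map fun i => [(1, [6 + i])])

noncomputable def ext {n : ℕ} (x : Fin n → ℝ) (i : ℕ) : ℝ := if h : i < n then x ⟨i, h⟩ else 0

theorem val_append {n} (x : Fin n → ℝ) (p q) : val (p ++ q) x = val p x + val q x := by simp [val]

theorem val_mu {n} (x : Fin n → ℝ) (c l p) : val (mu c l p) x = c * (l.map (ext x)).prod * val p x := by
  induction p with
  | nil => simp [val, mu]
  | cons m p ih =>
    simp only [val, mu, List.map_cons, List.sum_cons, List.map_append, List.prod_append] at ih ⊢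
    rw [ih]
    unfold ext
    push_cast
    ring

noncomputable def df (y : ℕ → ℝ) (E : List Q4) : ℝ :=
  y 0 ^ 2 + (y 1 - 1) ^ 2 + (E.map fun e => (y e.1 * y e.2.1 + y e.2.2.1 - y e.2.2.2) ^ 2).sum

theorem val_pp {n} (x : Fin n → ℝ) (E : List Q4) : val (pp E) x = ext x 0 ^ 2 + df (fun i => ext x (i + 3)) E := by
  have : val (E.flatMap sq) x = (E.map fun e =>
      (ext x (e.1 + 3) * ext x (e.2.1 + 3) + ext x (e.2.2.1 + 3) - ext x (e.2.2.2 + 3)) ^ 2).sum := by
    induction E with
    | nil => simp [val]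
    | cons e E ih =>
      rw [List.flatMap_cons, val_append, ih]
      simp only [val, sq, List.map_cons, List.sum_cons, List.prod_cons, List.map_nil, List.prod_nil, List.sum_nil, ext]
      push_cast
      ring
  rw [pp, val_append, this]
  simp only [val, df, List.map_cons, List.sum_cons, List.prod_cons, List.map_nil, List.prod_nil, List.sum_nil, ext]
  push_cast
  ring

theorem df_nonneg (y E) : 0 ≤ df y E :=
  add_nonneg (by positivity) (List.sum_nonneg (List.forall_mem_map.2 fun _ _ => sq_nonneg _))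

theorem df_zero (y E) : df y E = 0 ↔ Sat E y := by
  constructor
  · intro h
    unfold df at h
    have p : ∀ r ∈ E.map fun e => (y e.1 * y e.2.1 + y e.2.2.1 - y e.2.2.2) ^ 2, 0 ≤ r :=
      List.forall_mem_map.2 fun _ _ => sq_nonneg _
    have p0 := List.sum_nonneg p
    have p2 := sq_nonneg (y 0)
    have p3 := sq_nonneg (y 1 - 1)
    refine ⟨pow_eq_zero_iff two_ne_zero |>.1 (by linarith),
      sub_eq_zero.1 (pow_eq_zero_iff two_ne_zero |>.1 (by linarith)), fun q hq => ?_⟩
    have := List.single_le_sum p _ (List.mem_map_of_mem hq)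
    exact sub_eq_zero.1 (pow_eq_zero_iff two_ne_zero |>.1 (le_antisymm (by linarith) (sq_nonneg _)))
  · rintro ⟨h0, h1, h⟩
    rw [df, h0, h1, List.sum_eq_zero (List.forall_mem_map.2 fun e he => by rw [h e he]; simp)]
    simp

theorem cubic (p q : ℝ) : ∃ s : ℝ, s ^ 3 - p * s - q = 0 := by
  have h1 := le_abs_self p
  have h2 := le_abs_self q
  have h3 := neg_abs_le q
  have h4 := abs_nonneg p
  have h5 := abs_nonneg q
  generalize |p| = P at *
  generalize |q| = Q at *
  have h6 : Q ≤ (1 + P + Q) ^ 3 - p * (1 + P + Q) := by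
    have : 1 + P + Q ≤ (1 + P + Q) ^ 2 := by nlinarith
    have : 1 + Q ≤ (1 + P + Q) ^ 2 - p := by linarith
    nlinarith
  have c : Continuous fun s : ℝ => s ^ 3 - p * s - q := by fun_prop
  exact intermediate_value_univ (-(1 + P + Q)) (1 + P + Q) c ⟨by linarith, by linarith⟩

theorem plane (a b : ℝ) (h : ¬(a = 0 ∧ b = 0)) : ∃ s t : ℝ, s * t - 1 = a ∧ s ^ 3 * t - s ^ 2 - t = b := by
  by_cases c : a = 0
  · have : b ≠ 0 := fun e => h ⟨c, e⟩
    exact ⟨-b⁻¹, -b, by simp [c, this], by field_simp; ring⟩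
  · obtain ⟨s, hs⟩ := cubic (b / a) ((a + 1) / a)
    have : s * (a * s ^ 2 - b) - 1 = a := by field_simp at hs; linarith
    exact ⟨s, a * s ^ 2 - b, this, by linear_combination s ^ 2 * this⟩

theorem surj_iff (k N : List Unit) (E : List Q4) : Surj (red (k, N, E)) ↔ ∀ (a b : ℝ) (u : ℕ → ℝ),
    ∃ x : Fin (N.length + 3) → ℝ, (ext x 1 * ext x 2 - 1) * val (pp E) x = a ∧
      (ext x 1 ^ 3 * ext x 2 - ext x 1 ^ 2 - ext x 2) * val (pp E) x = b ∧ ∀ i < k.length, ext x (6 + i) = u i := by
  have hl : (red (k, N, E)).2.length = k.length + 2 := by simp [red]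
  have e0 : ∀ x : Fin (N.length + 3) → ℝ, val ((red (k, N, E)).2[0]'(by omega)) x =
      (ext x 1 * ext x 2 - 1) * val (pp E) x := fun x => by
    simp only [red, List.getElem_cons_zero, val_append, val_mu]; simp; ring
  have e1 : ∀ x : Fin (N.length + 3) → ℝ, val ((red (k, N, E)).2[1]'(by omega)) x =
      (ext x 1 ^ 3 * ext x 2 - ext x 1 ^ 2 - ext x 2) * val (pp E) x := fun x => by
    simp only [red, List.getElem_cons_succ, List.getElem_cons_zero, val_append, val_mu]; simp; ring
  have e2 : ∀ (x : Fin (N.length + 3) → ℝ) i (hi : i < k.length), val ((red (k, N, E)).2[i + 2]'(by omega)) x =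
      ext x (6 + i) := fun x i hi => by
    simp [red, val, ext]
  constructor
  · intro H a b u
    obtain ⟨x, hx⟩ := H fun j => if j.1 = 0 then a else if j.1 = 1 then b else u (j.1 - 2)
    exact ⟨x, (e0 x).symm.trans (congrFun hx ⟨0, by omega⟩), (e1 x).symm.trans (congrFun hx ⟨1, by omega⟩),
      fun i hi => (e2 x i hi).symm.trans (congrFun hx ⟨i + 2, by omega⟩)⟩
  · intro H w
    obtain ⟨x, h0, h1, h⟩ := H (w ⟨0, by omega⟩) (w ⟨1, by omega⟩) fun i => if h : i < k.length then w ⟨i + 2, by omega⟩ else 0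
    refine ⟨x, funext fun ⟨j, hj⟩ => ?_⟩
    rcases j with _ | _ | j
    · exact (e0 x).trans h0
    · exact (e1 x).trans h1
    · have : j < k.length := by omega
      exact (e2 x j this).trans ((h j this).trans (dif_pos this))

theorem red_iff (k N : List Unit) (E : List Q4) (h3 : k.length + 3 ≤ N.length) (hE : ∀ e ∈ E, Q4.lt N.length e) :
    (∀ u : ℕ → ℝ, ∃ y, (∀ i < k.length, y (3 + i) = u i) ∧ Sat E y) ↔ Surj (red (k, N, E)) := by
  rw [surj_iff]
  constructor
  · intro H a b u
    obtain ⟨y, hu, hy⟩ := H u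
    have key : ∀ z s t : ℝ, ∃ x : Fin (N.length + 3) → ℝ, ext x 1 = s ∧ ext x 2 = t ∧ val (pp E) x = z ^ 2 ∧
        ∀ i < k.length, ext x (6 + i) = u i := fun z s t => by
      let x : Fin (N.length + 3) → ℝ := fun i => if i.1 = 0 then z else if i.1 = 1 then s else if i.1 = 2 then t else y (i.1 - 3)
      have e : ∀ i < N.length, ext x (i + 3) = y i := fun i hi => by simp [ext, x, hi]
      refine ⟨x, by simp [ext, x], by simp [ext, x], ?_, fun i hi => by
        rw [← hu i hi, ← e _ (by omega)]; congr 1; omega⟩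
      rw [val_pp, (df_zero _ _).2 ⟨by rw [e 0 (by omega), hy.1], by rw [e 1 (by omega), hy.2.1], fun q hq =>
        Q4.ok_congr (hE q hq) e (hy.2.2 q hq)⟩]
      simp [ext, x]
    by_cases c : a = 0 ∧ b = 0
    · obtain ⟨x, h1, h2, h3, h4⟩ := key 0 0 0
      exact ⟨x, by simp [h3, c], by simp [h3, c], h4⟩
    · obtain ⟨s, t, hs, ht⟩ := plane a b c
      obtain ⟨x, h1, h2, h3, h4⟩ := key 1 s t
      exact ⟨x, by simp [h1, h2, h3, hs], by simp [h1, h2, h3, ht], h4⟩
  · intro H u
    obtain ⟨x, h1, h2, h⟩ := H 0 0 u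
    have : val (pp E) x = 0 := by
      by_contra c
      have a := (mul_eq_zero.1 h1).resolve_right c
      have b := (mul_eq_zero.1 h2).resolve_right c
      have : ext x 2 = 0 := by linear_combination ext x 1 ^ 2 * a - b
      simp [this] at a
    rw [val_pp] at this
    refine ⟨fun i => ext x (i + 3), fun i hi => by rw [← h i hi, show 6 + i = 3 + i + 3 by omega], (df_zero _ _).1 ?_⟩
    linarith [df_nonneg (fun i => ext x (i + 3)) E, sq_nonneg (ext x 0)]

def redV (a : List Unit × List Unit × List Q4) : List Unit × List Pl :=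
  if a.1.length + 3 ≤ a.2.1.length ∧
    ∀ e ∈ a.2.2, e.1 < a.2.1.length ∧ e.2.1 < a.2.1.length ∧ e.2.2.1 < a.2.1.length ∧ e.2.2.2 < a.2.1.length
  then red a else ([], [])

theorem redV_ok (a) : Valid (redV a) := by
  unfold redV
  split_ifs with h
  · have p : ∀ m ∈ pp a.2.2, m.2.length ≤ 4 ∧ ∀ i ∈ m.2, i < a.2.1.length + 3 := by
      simp only [pp, List.forall_mem_append, List.forall_mem_cons, List.forall_mem_flatMap, sq, List.length_cons,
        List.length_nil, List.not_mem_nil, false_imp_iff, implies_true, and_true]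
      refine ⟨by omega, fun e he => ?_⟩
      have := h.2 e he
      omega
    have q : ∀ c l, l.length ≤ 4 → (∀ i ∈ l, i < 3) → ∀ m ∈ mu c l (pp a.2.2),
        m.2.length ≤ 8 ∧ ∀ i ∈ m.2, i < a.2.1.length + 3 := fun c l h1 h2 => List.forall_mem_map.2 fun m hm => by
      have := p m hm
      simp only [List.length_append, List.forall_mem_append]
      exact ⟨by omega, fun i hi => by have := h2 i hi; omega, this.2⟩
    simp only [Valid, red, List.forall_mem_cons, List.forall_mem_append, List.length_cons, List.forall_mem_map]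
    refine ⟨⟨q _ _ (by simp) (by simp), q _ _ (by simp) (by simp)⟩,
      ⟨⟨q _ _ (by simp) (by simp), q _ _ (by simp) (by simp)⟩, q _ _ (by simp) (by simp)⟩, fun i hi => ?_⟩
    simp at hi ⊢
    omega
  · simp [Valid]

theorem result : Red AETR fun a : {a : List Unit × List Pl // Valid a} => Surj a.1 := by
  refine aetr_of_qs (fun a => ⟨redV a, redV_ok a⟩) (PT.subtype (by unfold redV red mu pp sq; fun_prop) _)
    fun k N E h3 hE => ?_
  rw [red_iff k N E h3 hE]
  simp only [redV]
  rw [if_pos ⟨h3, hE⟩]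

end Pool.Agent.Results.MP_e38cae_lc.Hard
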